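import Pool.Agent.Lib.P1346B.Pair

/-!
# The order of the columns and the corners
-/

set_option autoImplicit false

namespace P1346e8

namespace B

variable {V : Type} {M lt : V → V → Prop} {p q ν : V → ℕ} {S : V → Prop}

/-- The lexicographic order of three numbers. -/
def Lx (t k q : V → ℕ) (y y' : V) : Prop :=
  t y < t y' ∨ (t y = t y' ∧ (k y < k y' ∨ (k y = k y' ∧ q y < q y')))

/-- A column order of the form needed: `t` is the type of the column, `κ` its milestone. -/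
structure Blk (M lt : V → V → Prop) (p : V → ℕ) (S : V → Prop) (t : V → ℕ) (κ : V → V) : Prop where
  t0 : ∀ y, t y = 0 ↔ AA M S y
  t1 : ∀ y, t y ≤ 1
  key : ∀ y, Co M y → Key M S (colr p S) y (κ y)

theorem exists_blk [Finite V] (h : Num M lt p q) (hS : Mil M p S) :
    ∃ (t : V → ℕ) (κ : V → V), Blk M lt p S t κ := by
  classical
  refine ⟨fun y => if AA M S y then 0 else 1,
    fun y => if hy : Co M y then (key_exists h hS hy).choose else y, ?_, ?_, ?_⟩
  · intro y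
    by_cases hA : AA M S y
    · simp [hA]
    · simp [hA]
  · intro y
    by_cases hA : AA M S y
    · simp [hA]
    · simp [hA]
  · intro y hy
    rw [dif_pos hy]
    exact (key_exists h hS hy).choose_spec

theorem gam_iff [Finite V] (h : Num M lt p q) (hS : Mil M p S) (hν : ∀ a b, ν a < ν b ↔ lt a b)
    (hνi : ∀ a b, ν a = ν b → a = b)
    {t : V → ℕ} {κ : V → V} (hB : Blk M lt p S t κ) {y y' : V} :
    gam M lt S (colr p S) y y' ↔ Co M y ∧ Co M y' ∧ Lx t (fun y => ν (κ y)) q y y' := by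
  unfold gam
  refine and_congr_right fun hy => and_congr_right fun hy' => ?_
  have e0 := hB.t0 y
  have e0' := hB.t0 y'
  have e1 := hB.t1 y
  have e1' := hB.t1 y'
  have hk := hB.key y hy
  have hk' := hB.key y' hy'
  unfold Lx
  constructor
  · rintro (⟨h1, h2⟩ | ⟨h1, m, m', h2, h3, h4⟩)
    · left
      rw [← e0] at h1
      rw [← e0'] at h2
      omega
    · have ht : t y = t y' := by
        rw [← e0, ← e0'] at h1
        omega
      have hm := key_unique h hS h2 hk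
      have hm' := key_unique h hS h3 hk'
      subst hm hm'
      refine Or.inr ⟨ht, ?_⟩
      rcases h4 with h4 | ⟨h4, h5⟩
      · exact Or.inl ((hν _ _).2 h4)
      · refine Or.inr ⟨by simp only [h4], ?_⟩
        rcases h5 with ⟨h5, h6⟩ | ⟨h5, h6⟩
        · have g1 := key_mil h5 hk
          have g2 := key_mil (h1.1 h5) hk'
          rw [← h4] at g2
          exact (da_iff h hS hk.1 g1 g2).1 h6
        · have hk2 := hk'
          rw [← h4] at hk2
          exact (db_iff h hS h5 (fun g => h5 (h1.2 g)) hk hk2 hy hy').1 h6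
  · rintro (h1 | ⟨h1, h2⟩)
    · left
      rw [← e0, ← e0']
      omega
    · right
      have hAA : AA M S y ↔ AA M S y' := by
        rw [← e0, ← e0', h1]
      refine ⟨hAA, κ y, κ y', hk, hk', ?_⟩
      rcases h2 with h2 | ⟨h2, h3⟩
      · exact Or.inl ((hν _ _).1 h2)
      · have h4 : κ y = κ y' := hνi _ _ h2
        refine Or.inr ⟨h4, ?_⟩
        have hk2 := hk'
        rw [← h4] at hk2
        by_cases hA : AA M S y
        · left
          refine ⟨hA, (da_iff h hS hk.1 (key_mil hA hk) (key_mil (hAA.1 hA) hk2)).2 h3⟩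
        · right
          exact ⟨hA, (db_iff h hS hA (fun g => hA (hAA.2 g)) hk hk2 hy hy').2 h3⟩

theorem strictLin_gam [Finite V] (h : Num M lt p q) (hS : Mil M p S)
    (hν : ∀ a b, ν a < ν b ↔ lt a b) (hνi : ∀ a b, ν a = ν b → a = b) :
    StrictLin (Co M) (gam M lt S (colr p S)) := by
  obtain ⟨t, κ, hB⟩ := exists_blk h hS
  refine ⟨?_, ?_, ?_⟩
  · intro x _ hx
    rw [gam_iff h hS hν hνi hB] at hx
    have := hx.2.2
    unfold Lx at this
    omega
  · intro x y z hx _ hz h1 h2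
    rw [gam_iff h hS hν hνi hB] at h1 h2 ⊢
    refine ⟨hx, hz, ?_⟩
    have g1 := h1.2.2
    have g2 := h2.2.2
    unfold Lx at g1 g2 ⊢
    omega
  · intro x y hx hy hne
    rw [gam_iff h hS hν hνi hB, gam_iff h hS hν hνi hB]
    have hq : q x ≠ q y := fun e => hne (h.hq x y hx hy e)
    by_contra hn
    push Not at hn
    have g1 := hn.1 hx hy
    have g2 := hn.2 hy hx
    unfold Lx at g1 g2
    omega

theorem strictLin_rho (hlt : StrictLin (fun _ => True) lt) : StrictLin (Ro M) (rho M lt) := by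
  refine ⟨fun x _ h => hlt.1 x trivial h.2.2, fun x y z hx hy hz h1 h2 => ⟨hx, hz,
    hlt.2.1 x y z trivial trivial trivial h1.2.2 h2.2.2⟩, fun x y hx hy hne => ?_⟩
  rcases hlt.2.2 x y trivial trivial hne with h | h
  · exact Or.inl ⟨hx, hy, h⟩
  · exact Or.inr ⟨hy, hx, h⟩

/-- The class of a column of the row `z`. -/
def sub (t p : V → ℕ) (κ : V → V) (z y : V) : Fin 3 → Prop
  | 0 => t y = 0 ∧ p (κ y) ≤ p z
  | 1 => t y = 0 ∧ p z < p (κ y)
  | 2 => t y = 1

theorem sub_key [Finite V] (h : Num M lt p q) (hS : Mil M p S) {t : V → ℕ} {κ : V → V}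
    (hB : Blk M lt p S t κ) {z y y' : V} (hy : M z y) (hy' : M z y') {i : Fin 3}
    (h1 : sub t p κ z y i) (h2 : sub t p κ z y' i) : t y = t y' ∧ κ y = κ y' := by
  have hk := hB.key y ⟨z, hy⟩
  have hk' := hB.key y' ⟨z, hy'⟩
  fin_cases i
  · change t y = 0 ∧ p (κ y) ≤ p z at h1
    change t y' = 0 ∧ p (κ y') ≤ p z at h2
    have g := key_mil ((hB.t0 y).1 h1.1) hk
    have g' := key_mil ((hB.t0 y').1 h2.1) hk'
    exact ⟨by rw [h1.1, h2.1], mu_unique h hS hk.1 hk'.1 h1.2 h2.2 ⟨y, g, hy⟩ ⟨y', g', hy'⟩⟩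
  · change t y = 0 ∧ p z < p (κ y) at h1
    change t y' = 0 ∧ p z < p (κ y') at h2
    have g := key_mil ((hB.t0 y).1 h1.1) hk
    have g' := key_mil ((hB.t0 y').1 h2.1) hk'
    exact ⟨by rw [h1.1, h2.1], nu_unique h hS hk.1 hk'.1 h1.2.le h2.2.le ⟨y, g, hy⟩ ⟨y', g', hy'⟩⟩
  · change t y = 1 at h1
    change t y' = 1 at h2
    have hA : ¬ AA M S y := by
      rw [← hB.t0]
      omega
    have hA' : ¬ AA M S y' := by
      rw [← hB.t0]
      omega
    obtain ⟨a1, a2, a3⟩ := (ff_iff h hS).1 (key_row h hS hA hk hy)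
    obtain ⟨b1, b2, b3⟩ := (ff_iff h hS).1 (key_row h hS hA' hk' hy')
    exact ⟨by rw [h1, h2], mu_unique h hS a1 b1 a2 b2 a3 b3⟩

theorem sub_exists {t : V → ℕ} {κ : V → V}
    (hB : Blk M lt p S t κ) (z y : V) : ∃ i, sub t p κ z y i := by
  have h1 := hB.t1 y
  by_cases h0 : t y = 0
  · rcases Nat.lt_or_ge (p z) (p (κ y)) with h2 | h2
    · exact ⟨1, h0, h2⟩
    · exact ⟨0, h0, h2⟩
  · exact ⟨2, by change t y = 1; omega⟩

/-- The row `z` changes after the column `y`. -/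
def Chg (M lt : V → V → Prop) (p : V → ℕ) (S : V → Prop) (t : V → ℕ) (κ : V → V) (z : V)
    (b : Bool) (i : Fin 3) (y : V) : Prop :=
  ∃ y', Nxt (Co M) (gam M lt S (colr p S)) y y' ∧
    ((b = true ∧ M z y ∧ ¬ M z y' ∧ sub t p κ z y i) ∨
      (b = false ∧ ¬ M z y ∧ M z y' ∧ sub t p κ z y' i))

theorem conv (h : Num M lt p q)
    {t : V → ℕ} {κ : V → V} {z y1 y2 y3 : V} (h2 : Co M y2) (ht : t y1 = t y3) (hκ : κ y1 = κ y3)
    (h12 : ¬ Lx t (fun y => ν (κ y)) q y2 y1) (h23 : ¬ Lx t (fun y => ν (κ y)) q y3 y2)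
    (hz1 : M z y1) (hz3 : M z y3) : M z y2 := by
  have e : ν (κ y1) = ν (κ y3) := by rw [hκ]
  unfold Lx at h12 h23
  dsimp only at h12 h23
  exact h.colm (by omega) (by omega) h2 hz1 hz3

theorem chg_lt [Finite V] (h : Num M lt p q) (hS : Mil M p S) (hν : ∀ a b, ν a < ν b ↔ lt a b)
    (hνi : ∀ a b, ν a = ν b → a = b) {t : V → ℕ} {κ : V → V} (hB : Blk M lt p S t κ) {z : V}
    {b : Bool} {i : Fin 3} {y y2 : V} (h1 : Chg M lt p S t κ z b i y) (h2 : Chg M lt p S t κ z b i y2)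
    (hlt : gam M lt S (colr p S) y y2) : False := by
  obtain ⟨y', hn, hc⟩ := h1
  obtain ⟨y2', hn2, hc2⟩ := h2
  obtain ⟨a1, a2, a3, a4⟩ := hn
  obtain ⟨b1, b2, b3, b4⟩ := hn2
  have c1 := a4 y2 b1
  have hyy : ¬ gam M lt S (colr p S) y2 y' := fun g => c1 ⟨hlt, g⟩
  rw [gam_iff h hS hν hνi hB] at a3 b3 hlt hyy
  have hyy' : ¬ Lx t (fun y => ν (κ y)) q y2 y' := fun g => hyy ⟨b1, a2, g⟩
  rcases hc with ⟨hb, d1, d2, d3⟩ | ⟨hb, d1, d2, d3⟩
  · rcases hc2 with ⟨_, e1, e2, e3⟩ | ⟨hb', _⟩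
    · obtain ⟨ht, hκ⟩ := sub_key h hS hB d1 e1 d3 e3
      refine d2 (conv h a2 ht hκ ?_ hyy' d1 e1)
      have := a3.2.2
      unfold Lx at this ⊢
      omega
    · rw [hb] at hb'
      cases hb'
  · rcases hc2 with ⟨hb', _⟩ | ⟨_, e1, e2, e3⟩
    · rw [hb] at hb'
      cases hb'
    · obtain ⟨ht, hκ⟩ := sub_key h hS hB d2 e2 d3 e3
      refine e1 (conv h b1 ht hκ hyy' ?_ d2 e2)
      have := b3.2.2
      unfold Lx at this ⊢
      omega

theorem chg_unique [Finite V] (h : Num M lt p q) (hS : Mil M p S) (hν : ∀ a b, ν a < ν b ↔ lt a b)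
    (hνi : ∀ a b, ν a = ν b → a = b) {t : V → ℕ} {κ : V → V} (hB : Blk M lt p S t κ) {z : V}
    {b : Bool} {i : Fin 3} {y y2 : V} (h1 : Chg M lt p S t κ z b i y)
    (h2 : Chg M lt p S t κ z b i y2) : y = y2 := by
  by_contra hne
  have hy : Co M y := by
    obtain ⟨_, h, _⟩ := h1
    exact h.1
  have hy2 : Co M y2 := by
    obtain ⟨_, h, _⟩ := h2
    exact h.1
  rcases (strictLin_gam h hS hν hνi).2.2 y y2 hy hy2 hne with g | g
  · exact chg_lt h hS hν hνi hB h1 h2 g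
  · exact chg_lt h hS hν hνi hB h2 h1 g

theorem chg_of_ne {t : V → ℕ} {κ : V → V}
    (hB : Blk M lt p S t κ) {z y y' : V} (hn : Nxt (Co M) (gam M lt S (colr p S)) y y')
    (h : ¬ (M z y ↔ M z y')) : ∃ b i, Chg M lt p S t κ z b i y := by
  by_cases h1 : M z y
  · by_cases h2 : M z y'
    · exact absurd (iff_of_true h1 h2) h
    · obtain ⟨i, hi⟩ := sub_exists hB z y
      exact ⟨true, i, y', hn, Or.inl ⟨rfl, h1, h2, hi⟩⟩
  · by_cases h2 : M z y'
    · obtain ⟨i, hi⟩ := sub_exists hB z y'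
      exact ⟨false, i, y', hn, Or.inr ⟨rfl, h1, h2, hi⟩⟩
    · exact absurd (iff_of_false h1 h2) h

/-- The corner relation has no `K_{13,13}`. -/
theorem corner13 [Finite V] (h : Num M lt p q) (hS : Mil M p S)
    (hlt : StrictLin (fun _ => True) lt) (hν : ∀ a b, ν a < ν b ↔ lt a b)
    (hνi : ∀ a b, ν a = ν b → a = b) :
    BicliqueFree 13 (Corner (Ro M) (rho M lt) (Co M) (gam M lt S (colr p S)) M) := by
  obtain ⟨t, κ, hB⟩ := exists_blk h hS
  rintro ⟨f, g, _, hg, hC⟩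
  obtain ⟨x', _, hx', _⟩ := hC 0 0
  have key : ∀ j : Fin 13, ∃ c : Bool × Bool × Fin 3,
      Chg M lt p S t κ (if c.1 then f 0 else x') c.2.1 c.2.2 (g j) := by
    intro j
    obtain ⟨x'', y', h1, h2, _, h3⟩ := hC 0 j
    have e : x'' = x' := by
      by_contra hne
      have hl := strictLin_rho (M := M) hlt
      rcases hl.2.2 x'' x' h1.2.1 hx'.2.1 hne with g1 | g1
      · exact hx'.2.2.2 x'' h1.2.1 ⟨h1.2.2.1, g1⟩
      · exact h1.2.2.2 x' hx'.2.1 ⟨hx'.2.2.1, g1⟩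
    subst e
    by_cases h4 : (M (f 0) (g j) ↔ M (f 0) y')
    · have h5 : ¬ (M x'' (g j) ↔ M x'' y') := fun h5 => h3 ⟨h4, h5⟩
      obtain ⟨b, i, hb⟩ := chg_of_ne hB h2 h5
      exact ⟨(false, b, i), hb⟩
    · obtain ⟨b, i, hb⟩ := chg_of_ne hB h2 h4
      exact ⟨(true, b, i), hb⟩
  choose c hc using key
  obtain ⟨j, j', hne, he⟩ := Fintype.exists_ne_map_eq_of_card_lt c (by decide)
  have h1 := hc j
  have h2 := hc j'
  rw [← he] at h2
  exact hne (hg (chg_unique h hS hν hνi hB h1 h2))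

end B

end P1346e8
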