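import Pool.Agent.Lib.P1346B.Defs
import Pool.Agent.Lib.P1346e8.Lib

/-!
# The orders are first-order definable
-/

set_option autoImplicit false

namespace P1346e8

namespace B

universe u

variable {ι : Type u} {β υ : Type} {F : Fam ι β υ} {M lt : (i : ι) → F.X i → F.X i → Prop}
  {S col : (i : ι) → F.X i → Prop}

theorem def1_Ro (hM : F.Def2 M) : F.Def1 (fun i => Ro (M i)) :=
  Fam.Def.ex (Fam.Def2.at hM _ _)

theorem def1_Co (hM : F.Def2 M) : F.Def1 (fun i => Co (M i)) :=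
  Fam.Def.ex (Fam.Def2.at hM _ _)

theorem def2_Meet (hM : F.Def2 M) : F.Def2 (fun i => Meet (M i)) :=
  Fam.Def.ex (Fam.Def.and (Fam.Def2.at hM _ _) (Fam.Def2.at hM _ _))

theorem def2_Tw (hM : F.Def2 M) : F.Def2 (fun i => Tw (M i)) :=
  Fam.Def.all (Fam.Def.iff (Fam.Def2.at hM _ _) (Fam.Def2.at hM _ _))

theorem def2_ff (hM : F.Def2 M) (hS : F.Def1 S) (hc : F.Def1 col) :
    F.Def2 (fun i => ff (M i) (S i) (col i)) :=
  Fam.Def.and (Fam.Def1.at hS _) (Fam.Def.and (Fam.Def.iff (Fam.Def1.at hc _) (Fam.Def1.at hc _))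
    (Fam.Def2.at (def2_Meet hM) _ _))

theorem def1_AA (hM : F.Def2 M) (hS : F.Def1 S) : F.Def1 (fun i => AA (M i) (S i)) :=
  Fam.Def.ex (Fam.Def.and (Fam.Def1.at hS _) (Fam.Def2.at hM _ _))

theorem def2_Key (hM : F.Def2 M) (hS : F.Def1 S) (hc : F.Def1 col) :
    F.Def2 (fun i => Key (M i) (S i) (col i)) :=
  Fam.Def.and (Fam.Def1.at hS _) (Fam.Def.or (Fam.Def2.at hM _ _)
    (Fam.Def.and (Fam.Def.not (Fam.Def1.at (def1_AA hM hS) _))
      (Fam.Def.ex (Fam.Def.and (Fam.Def2.at hM _ _) (Fam.Def2.at (def2_ff hM hS hc) _ _)))))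

theorem def3_DA (hM : F.Def2 M) (hl : F.Def2 lt) (hS : F.Def1 S) (hc : F.Def1 col) :
    F.Def3 (fun i => DA (M i) (lt i) (S i) (col i)) :=
  Fam.Def.or
    (Fam.Def.ex (Fam.Def.and (Fam.Def2.at (def2_ff hM hS hc) _ _)
      (Fam.Def.and (Fam.Def2.at hM _ _) (Fam.Def.not (Fam.Def2.at hM _ _)))))
    (Fam.Def.or
      (Fam.Def.ex (Fam.Def.and (Fam.Def.not (Fam.Def2.at (def2_ff hM hS hc) _ _))
        (Fam.Def.and (Fam.Def2.at hM _ _) (Fam.Def.not (Fam.Def2.at hM _ _)))))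
      (Fam.Def.and (Fam.Def2.at (def2_Tw hM) _ _) (Fam.Def2.at hl _ _)))

theorem def2_DB (hM : F.Def2 M) (hl : F.Def2 lt) : F.Def2 (fun i => DB (M i) (lt i)) :=
  Fam.Def.or
    (Fam.Def.ex (Fam.Def.and (Fam.Def2.at hM _ _) (Fam.Def.not (Fam.Def2.at hM _ _))))
    (Fam.Def.and (Fam.Def2.at (def2_Tw hM) _ _) (Fam.Def2.at hl _ _))

theorem def2_rho (hM : F.Def2 M) (hl : F.Def2 lt) : F.Def2 (fun i => rho (M i) (lt i)) :=
  Fam.Def.and (Fam.Def1.at (def1_Ro hM) _) (Fam.Def.and (Fam.Def1.at (def1_Ro hM) _)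
    (Fam.Def2.at hl _ _))

theorem def2_gam (hM : F.Def2 M) (hl : F.Def2 lt) (hS : F.Def1 S) (hc : F.Def1 col) :
    F.Def2 (fun i => gam (M i) (lt i) (S i) (col i)) := by
  refine Fam.Def.and (Fam.Def1.at (def1_Co hM) _) (Fam.Def.and (Fam.Def1.at (def1_Co hM) _)
    (Fam.Def.or (Fam.Def.and (Fam.Def1.at (def1_AA hM hS) _)
      (Fam.Def.not (Fam.Def1.at (def1_AA hM hS) _)))
      (Fam.Def.and (Fam.Def.iff (Fam.Def1.at (def1_AA hM hS) _) (Fam.Def1.at (def1_AA hM hS) _))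
        (Fam.Def.ex (Fam.Def.ex (Fam.Def.and (Fam.Def2.at (def2_Key hM hS hc) _ _)
          (Fam.Def.and (Fam.Def2.at (def2_Key hM hS hc) _ _)
            (Fam.Def.or (Fam.Def2.at hl _ _) (Fam.Def.and (Fam.Def.eq _ _ _)
              (Fam.Def.or (Fam.Def.and (Fam.Def1.at (def1_AA hM hS) _)
                (Fam.Def3.at (def3_DA hM hl hS hc) _ _ _))
                (Fam.Def.and (Fam.Def.not (Fam.Def1.at (def1_AA hM hS) _))
                  (Fam.Def2.at (def2_DB hM hl) _ _))))))))))))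

end B

end P1346e8
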