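import Pool.Agent.Lib.P1346e8.Defs

/-!
# Pairs of sets with a strong ordering (bipartite permutation graphs)
-/

set_option autoImplicit false

namespace P1346e8

/-- The relation `R` between the rows `X` and the columns `Y` has a strong ordering: for some linear orders
`r` of `X` and `s` of `Y`, whenever `x` is before `x'`, `y` is before `y'` and both `(x, y')` and `(x', y)`
are in `R`, also `(x, y)` and `(x', y')` are in `R`. -/
def StrongOrd {V : Type} (R : V → V → Prop) (X Y : V → Prop) : Prop :=
  ∃ r s : V → V → Prop, StrictLin X r ∧ StrictLin Y s ∧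
    ∀ x x' y y', X x → X x' → Y y → Y y' → r x x' → s y y' → R x y' → R x' y → R x y ∧ R x' y'

namespace B

variable {V : Type}

/-- `x` has a column. -/
def Ro (M : V → V → Prop) (x : V) : Prop := ∃ y, M x y

/-- `y` has a row. -/
def Co (M : V → V → Prop) (y : V) : Prop := ∃ x, M x y

/-- The rows `x` and `x'` have a common column. -/
def Meet (M : V → V → Prop) (x x' : V) : Prop := ∃ y, M x y ∧ M x' y

/-- The columns `y` and `y'` have the same rows. -/
def Tw (M : V → V → Prop) (y y' : V) : Prop := ∀ x, M x y ↔ M x y'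

/-- `m` is the milestone of the row `x`. -/
def ff (M : V → V → Prop) (S col : V → Prop) (x m : V) : Prop := S m ∧ (col m ↔ col x) ∧ Meet M m x

/-- The column `y` belongs to a milestone. -/
def AA (M : V → V → Prop) (S : V → Prop) (y : V) : Prop := ∃ m, S m ∧ M m y

/-- `m` is the milestone of the column `y`. -/
def Key (M : V → V → Prop) (S col : V → Prop) (y m : V) : Prop :=
  S m ∧ (M m y ∨ (¬ AA M S y ∧ ∃ x, M x y ∧ ff M S col x m))

/-- The order of the columns of the milestone `m`. -/
def DA (M lt : V → V → Prop) (S col : V → Prop) (m y y' : V) : Prop :=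
  (∃ x, ff M S col x m ∧ M x y' ∧ ¬ M x y) ∨ (∃ x, ¬ ff M S col x m ∧ M x y ∧ ¬ M x y') ∨
    (Tw M y y' ∧ lt y y')

/-- The order of the other columns with the same milestone. -/
def DB (M lt : V → V → Prop) (y y' : V) : Prop :=
  (∃ x, M x y ∧ ¬ M x y') ∨ (Tw M y y' ∧ lt y y')

/-- The order of the columns. -/
def gam (M lt : V → V → Prop) (S col : V → Prop) (y y' : V) : Prop :=
  Co M y ∧ Co M y' ∧ ((AA M S y ∧ ¬ AA M S y') ∨ ((AA M S y ↔ AA M S y') ∧
    ∃ m m', Key M S col y m ∧ Key M S col y' m' ∧ (lt m m' ∨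
      (m = m' ∧ ((AA M S y ∧ DA M lt S col m y y') ∨ (¬ AA M S y ∧ DB M lt y y'))))))

/-- The order of the rows. -/
def rho (M lt : V → V → Prop) (x x' : V) : Prop := Ro M x ∧ Ro M x' ∧ lt x x'

/-- Numberings of the rows and of the columns that are a strong ordering; the order of twin columns is
`lt`. -/
structure Num (M lt : V → V → Prop) (p q : V → ℕ) : Prop where
  hp : ∀ x x', Ro M x → Ro M x' → p x = p x' → x = x'
  hq : ∀ y y', Co M y → Co M y' → q y = q y' → y = y'
  hS : ∀ x x' y y', p x < p x' → q y < q y' → M x y' → M x' y → M x y ∧ M x' y'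
  hT : ∀ y y', Co M y → Co M y' → Tw M y y' → (q y < q y' ↔ lt y y')

/-- The milestones: no two of them meet, every row meets a milestone that is not after it. -/
structure Mil (M : V → V → Prop) (p : V → ℕ) (S : V → Prop) : Prop where
  ro : ∀ m, S m → Ro M m
  sep : ∀ m m', S m → S m' → Meet M m m' → m = m'
  cov : ∀ x, Ro M x → ∃ m, S m ∧ p m ≤ p x ∧ Meet M m x

end B

end P1346e8
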