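import Pool.Agent.Lib.P1346B.Defs

/-!
# Numberings from a strong ordering
-/

set_option autoImplicit false

namespace P1346e8

namespace B

variable {V : Type}

/-- a strict linear order on a set is given by a numbering -/
theorem rankS [Finite V] {S : V → Prop} {r : V → V → Prop} (h : StrictLin S r) :
    ∃ ν : V → ℕ, ∀ a b, S a → S b → (ν a < ν b ↔ r a b) := by
  classical
  have := Fintype.ofFinite V
  have hlt : ∀ a b, S a → S b → r a b → (Finset.univ.filter (fun z => S z ∧ r z a)).card <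
      (Finset.univ.filter (fun z => S z ∧ r z b)).card := by
    intro a b ha hb hab
    refine Finset.card_lt_card ⟨?_, ?_⟩
    · intro z hz
      rw [Finset.mem_filter] at hz ⊢
      exact ⟨hz.1, hz.2.1, h.2.1 z a b hz.2.1 ha hb hz.2.2 hab⟩
    · intro hs
      have h1 : a ∈ Finset.univ.filter (fun z => S z ∧ r z a) :=
        hs (Finset.mem_filter.2 ⟨Finset.mem_univ _, ha, hab⟩)
      exact h.1 a ha (Finset.mem_filter.1 h1).2.2
  refine ⟨fun a => (Finset.univ.filter (fun z => S z ∧ r z a)).card,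
    fun a b ha hb => ⟨fun hab => ?_, hlt a b ha hb⟩⟩
  by_contra hn
  by_cases he : a = b
  · subst he
    exact lt_irrefl _ hab
  · rcases h.2.2 a b ha hb he with h1 | h1
    · exact hn h1
    · exact lt_asymm hab (hlt b a hb ha h1)

theorem lex_lt {a a' b b' B : ℕ} (hb : b < B) (hb' : b' < B) :
    a * B + b < a' * B + b' ↔ a < a' ∨ (a = a' ∧ b < b') := by
  rcases lt_trichotomy a a' with h | h | h
  · have : (a + 1) * B ≤ a' * B := Nat.mul_le_mul_right B h
    rw [Nat.add_mul] at this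
    constructor
    · intro _
      exact Or.inl h
    · intro _
      omega
  · subst h
    constructor
    · intro h1
      exact Or.inr ⟨rfl, by omega⟩
    · intro h1
      omega
  · have : (a' + 1) * B ≤ a * B := Nat.mul_le_mul_right B h
    rw [Nat.add_mul] at this
    constructor
    · intro h1
      omega
    · intro h1
      omega

theorem exists_num [Finite V] {R lt : V → V → Prop} {X Y : V → Prop} (h : StrongOrd R X Y)
    (hlt : StrictLin (fun _ => True) lt) :
    ∃ p q, Num (fun x y => X x ∧ Y y ∧ R x y) lt p q := by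
  obtain ⟨r, s, hr, hs, hR⟩ := h
  obtain ⟨p, hp⟩ := rankS hr
  obtain ⟨q0, hq0⟩ := rankS hs
  obtain ⟨ν, hν⟩ := rankS hlt
  obtain ⟨B, hB⟩ : ∃ B, ∀ x, ν x < B := by
    obtain ⟨n, hn⟩ := (Set.finite_range ν).bddAbove
    exact ⟨n + 1, fun x => Nat.lt_succ_of_le (hn ⟨x, rfl⟩)⟩
  have hνi : ∀ a b, ν a = ν b → a = b := by
    intro a b hab
    by_contra hne
    rcases hlt.2.2 a b trivial trivial hne with h1 | h1
    · rw [← hν a b trivial trivial] at h1
      omega
    · rw [← hν b a trivial trivial] at h1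
      omega
  set M : V → V → Prop := fun x y => X x ∧ Y y ∧ R x y with hM
  have hRX : ∀ x, Ro M x → X x := fun x ⟨_, h⟩ => h.1
  have hCY : ∀ y, Co M y → Y y := fun y ⟨_, h⟩ => h.2.1
  have hpi : ∀ x x', Ro M x → Ro M x' → p x = p x' → x = x' := by
    intro a b ha hb hab
    by_contra hne
    rcases hr.2.2 a b (hRX a ha) (hRX b hb) hne with h1 | h1
    · rw [← hp a b (hRX a ha) (hRX b hb)] at h1
      omega
    · rw [← hp b a (hRX b hb) (hRX a ha)] at h1
      omega
  have hqi : ∀ x x', Co M x → Co M x' → q0 x = q0 x' → x = x' := by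
    intro a b ha hb hab
    by_contra hne
    rcases hs.2.2 a b (hCY a ha) (hCY b hb) hne with h1 | h1
    · rw [← hq0 a b (hCY a ha) (hCY b hb)] at h1
      omega
    · rw [← hq0 b a (hCY b hb) (hCY a ha)] at h1
      omega
  let qm : V → ℕ := fun y => sInf {n | ∃ z, Co M z ∧ Tw M z y ∧ q0 z = n}
  have hqm : ∀ y, Co M y → ∃ z, Co M z ∧ Tw M z y ∧ q0 z = qm y := by
    intro y hy
    exact Nat.sInf_mem (s := {n | ∃ z, Co M z ∧ Tw M z y ∧ q0 z = n}) ⟨q0 y, y, hy, fun x => Iff.rfl, rfl⟩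
  have hqt : ∀ y y', Tw M y y' → qm y = qm y' := by
    intro y y' ht
    have : {n | ∃ z, Co M z ∧ Tw M z y ∧ q0 z = n} = {n | ∃ z, Co M z ∧ Tw M z y' ∧ q0 z = n} := by
      ext n
      constructor
      · rintro ⟨z, h1, h2, h3⟩
        exact ⟨z, h1, fun x => (h2 x).trans (ht x), h3⟩
      · rintro ⟨z, h1, h2, h3⟩
        exact ⟨z, h1, fun x => (h2 x).trans (ht x).symm, h3⟩
    change sInf _ = sInf _
    rw [this]
  refine ⟨p, fun y => qm y * B + ν y, hpi, ?_, ?_, ?_⟩
  · intro y y' _ _ he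
    have h1 : ¬ (qm y * B + ν y < qm y' * B + ν y') := by omega
    have h2 : ¬ (qm y' * B + ν y' < qm y * B + ν y) := by omega
    rw [lex_lt (hB _) (hB _)] at h1 h2
    exact hνi y y' (by omega)
  · intro x x' y y' h1 h2 h3 h4
    rw [lex_lt (hB _) (hB _)] at h2
    have hy : Co M y := ⟨x', h4⟩
    have hy' : Co M y' := ⟨x, h3⟩
    obtain ⟨z, a1, a2, a3⟩ := hqm y hy
    obtain ⟨z', b1, b2, b3⟩ := hqm y' hy'
    have h5 : qm y ≤ qm y' := by omega
    rcases Nat.eq_or_lt_of_le h5 with h6 | h6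
    · have e : z = z' := hqi z z' a1 b1 (by omega)
      subst e
      exact ⟨(a2 x).1 ((b2 x).2 h3), (b2 x').1 ((a2 x').2 h4)⟩
    · have hx : X x := hRX x ⟨y', h3⟩
      have hx' : X x' := hRX x' ⟨y, h4⟩
      have c3 : M x z' := (b2 x).2 h3
      have c4 : M x' z := (a2 x').2 h4
      have h7 : s z z' := (hq0 z z' (hCY z a1) (hCY z' b1)).1 (by omega)
      obtain ⟨d1, d2⟩ := hR x x' z z' hx hx' (hCY z a1) (hCY z' b1) ((hp x x' hx hx').1 h1) h7
        c3.2.2 c4.2.2
      exact ⟨(a2 x).1 ⟨hx, hCY z a1, d1⟩, (b2 x').1 ⟨hx', hCY z' b1, d2⟩⟩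
  · intro y y' _ _ ht
    rw [lex_lt (hB _) (hB _), ← hν y y' trivial trivial, hqt y y' ht]
    constructor
    · intro h1
      omega
    · intro h1
      exact Or.inr ⟨rfl, h1⟩

end B

end P1346e8
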