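import Pool.Agent.Lib.P1346B.Corn
import Pool.Agent.Lib.P1346B.Numb
import Pool.Agent.Lib.P1346B.DefB
import Pool.Agent.Lib.P1346e8.Main

/-!
# Q1 for classes of ordered graphs with strongly ordered pairs of parts
-/

set_option autoImplicit false

namespace P1346e8

namespace B

/-- The data of one pair of parts. -/
theorem pair_data {V : Type} [Finite V] {M lt : V → V → Prop} {X Y : V → Prop}
    {R : V → V → Prop} (hR : StrongOrd R X Y) (hlt : StrictLin (fun _ => True) lt)
    (hM : M = fun x y => X x ∧ Y y ∧ R x y) :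
    ∃ S col : V → Prop, StrictLin (Ro M) (rho M lt) ∧ StrictLin (Co M) (gam M lt S col) ∧
      BicliqueFree 13 (Corner (Ro M) (rho M lt) (Co M) (gam M lt S col) M) := by
  obtain ⟨p, q, hN⟩ := exists_num hR hlt
  rw [← hM] at hN
  obtain ⟨S, hS⟩ := exists_mil hN
  obtain ⟨ν, hν⟩ := rankS hlt
  have hν' : ∀ a b, ν a < ν b ↔ lt a b := fun a b => hν a b trivial trivial
  have hνi : ∀ a b, ν a = ν b → a = b := by
    intro a b hab
    by_contra hne
    rcases hlt.2.2 a b trivial trivial hne with h1 | h1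
    · rw [← hν'] at h1
      omega
    · rw [← hν'] at h1
      omega
  exact ⟨S, colr p S, strictLin_rho hlt, strictLin_gam hN hS hν' hνi,
    corner13 hN hS hlt hν' hνi⟩

theorem final_band (C : Set Str) (hC : ∀ A ∈ C, A.IsOrderedGraph) (N : ℕ)
    (h : ∀ A ∈ C, ∃ κ : A.V → Fin N, ∀ α β, ∃ c d : Prop,
      StrongOrd (fun x y => (A.r 0 x y ∨ (d ∧ x = y)) ↔ c) (fun x => κ x = α) (fun y => κ y = β)) :
    ∃ P : Set Str, IsPermClass P ∧ IsTransductionOf C P ∧ IsTransductionOf P C := by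
  classical
  choose κ c d hκ using fun i : C => h i.1 i.2
  let J : Type := Fin (Fintype.card (Fin N × Fin N))
  let en : J ≃ Fin N × Fin N := (Fintype.equivFin _).symm
  let M : J → (i : C) → i.1.V → i.1.V → Prop := fun j i x y =>
    κ i x = (en j).1 ∧ κ i y = (en j).2 ∧
      ((i.1.r 0 x y ∨ (d i (en j).1 (en j).2 ∧ x = y)) ↔ c i (en j).1 (en j).2)
  have hV : ∀ i : C, Finite i.1.V := fun i => i.1.fin
  have hdat := fun (i : C) (j : J) =>
    pair_data (M := M j i) (hκ i (en j).1 (en j).2) (hC i.1 i.2).2.2 rfl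
  choose S col hρ hγ hfree using hdat
  let U : (i : C) → (Fin N ⊕ (J × Fin 6)) → i.1.V → Prop := fun i u v => match u with
    | .inl γ => κ i v = γ
    | .inr (j, 0) => Ro (M j i) v
    | .inr (j, 1) => Co (M j i) v
    | .inr (j, 2) => S i j v
    | .inr (j, 3) => col i j v
    | .inr (j, 4) => c i (en j).1 (en j).2
    | .inr (j, 5) => d i (en j).1 (en j).2
  have hr : ∀ b, (baseFam (fun i : C => i.1) U).Def2 (fun i => i.1.r b) := fun b =>
    Fam.Def.bin (baseFam (fun i : C => i.1) U) b 0 1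
  have hM : ∀ j, (baseFam (fun i : C => i.1) U).Def2 (M j) := fun j =>
    Fam.Def.and (Fam.Def.un (baseFam (fun i : C => i.1) U) (.inl (en j).1) 0)
      (Fam.Def.and (Fam.Def.un (baseFam (fun i : C => i.1) U) (.inl (en j).2) 1)
        (Fam.Def.iff (Fam.Def.or (Fam.Def.bin (baseFam (fun i : C => i.1) U) 0 0 1)
          (Fam.Def.and (Fam.Def.un (baseFam (fun i : C => i.1) U) (.inr (j, 5)) 0)
            (Fam.Def.eq _ 0 1)))
          (Fam.Def.un (baseFam (fun i : C => i.1) U) (.inr (j, 4)) 0)))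
  have hS : ∀ j, (baseFam (fun i : C => i.1) U).Def1 (fun i => S i j) := fun j =>
    Fam.Def.un (baseFam (fun i : C => i.1) U) (.inr (j, 2)) 0
  have hcol : ∀ j, (baseFam (fun i : C => i.1) U).Def1 (fun i => col i j) := fun j =>
    Fam.Def.un (baseFam (fun i : C => i.1) U) (.inr (j, 3)) 0
  refine main_fam C hC (υ := Fin N ⊕ (J × Fin 6)) U (fun j => .inr (j, 0)) (fun j => .inr (j, 1))
    (fun j i => rho (M j i) (i.1.r 1)) (fun j i => gam (M j i) (i.1.r 1) (S i j) (col i j))
    M (fun j i x y h => ⟨h.1, h.2.1⟩) (fun j i x y h => ⟨h.1, h.2.1⟩)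
    (fun j i x y h => ⟨⟨y, h⟩, ⟨x, h⟩⟩)
    (fun j i => hρ i j) (fun j i => hγ i j) ?_ ?_ hM 13 (fun j i => hfree i j) ?_
  · intro j
    exact def2_rho (hM j) (hr 1)
  · intro j
    exact def2_gam (hM j) (hr 1) (hS j) (hcol j)
  · have h1 := Fam.Def.exFin (F := Asm.relFam C U M) (n := 2) (α := J)
      (Q := fun j i v => U i (.inl (en j).1) (v 0) ∧ U i (.inl (en j).2) (v 1) ∧ ¬ (v 0 = v 1) ∧
        (M j i (v 0) (v 1) ↔ U i (.inr (j, 4)) (v 0))) (by omega)
      fun j => Fam.Def.and (Fam.Def.un (Asm.relFam C U M) (.inl (en j).1) 0)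
        (Fam.Def.and (Fam.Def.un (Asm.relFam C U M) (.inl (en j).2) 1)
          (Fam.Def.and (Fam.Def.not (Fam.Def.eq _ 0 1))
            (Fam.Def.iff (Fam.Def.bin (Asm.relFam C U M) (some j) 0 1)
              (Fam.Def.un (Asm.relFam C U M) (.inr (j, 4)) 0))))
    refine h1.congr fun i v => ?_
    constructor
    · intro h0
      have hne : ¬ (v 0 = v 1) := by
        intro he
        rw [he] at h0
        exact (hC i.1 i.2).1 _ h0
      refine ⟨en.symm (κ i (v 0), κ i (v 1)), ?_⟩
      have e : en (en.symm (κ i (v 0), κ i (v 1))) = (κ i (v 0), κ i (v 1)) :=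
        Equiv.apply_symm_apply _ _
      refine ⟨?_, ?_, hne, ?_⟩
      · change κ i (v 0) = (en (en.symm (κ i (v 0), κ i (v 1)))).1
        rw [e]
      · change κ i (v 1) = (en (en.symm (κ i (v 0), κ i (v 1)))).2
        rw [e]
      · constructor
        · rintro ⟨_, _, h3⟩
          exact h3.1 (Or.inl h0)
        · intro h3
          refine ⟨?_, ?_, ?_⟩
          · rw [e]
          · rw [e]
          · exact iff_of_true (Or.inl h0) h3
    · rintro ⟨j, h1, h2, h3, h4⟩
      change (κ i (v 0) = (en j).1 ∧ κ i (v 1) = (en j).2 ∧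
        ((i.1.r 0 (v 0) (v 1) ∨ (d i (en j).1 (en j).2 ∧ v 0 = v 1)) ↔ c i (en j).1 (en j).2)) ↔
          c i (en j).1 (en j).2 at h4
      change i.1.r 0 (v 0) (v 1)
      have h1' : κ i (v 0) = (en j).1 := h1
      have h2' : κ i (v 1) = (en j).2 := h2
      by_contra hn
      by_cases hc : c i (en j).1 (en j).2
      · have := (h4.2 hc).2.2.2 hc
        rcases this with h5 | h5
        · exact hn h5
        · exact h3 h5.2
      · refine hc (h4.1 ⟨h1', h2', iff_of_false ?_ hc⟩)
        rintro (h5 | h5)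
        · exact hn h5
        · exact h3 h5.2

end B

end P1346e8
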