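import Pool.Agent.Lib.P1346B.Defs

/-!
# One pair: milestones, blocks of columns
-/

set_option autoImplicit false

namespace P1346e8

namespace B

variable {V : Type} {M lt : V → V → Prop} {p q : V → ℕ} {S col : V → Prop}

theorem Meet.symm {x x' : V} (h : Meet M x x') : Meet M x' x := by
  obtain ⟨y, h1, h2⟩ := h
  exact ⟨y, h2, h1⟩

theorem Num.row (h : Num M lt p q) {x x' x'' y : V} (h1 : p x ≤ p x') (h2 : p x' ≤ p x'')
    (hx' : Ro M x') (hy : M x y) (hy' : M x'' y) : M x' y := by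
  rcases Nat.eq_or_lt_of_le h1 with e | h1
  · rw [← h.hp x x' ⟨y, hy⟩ hx' e]
    exact hy
  rcases Nat.eq_or_lt_of_le h2 with e | h2
  · rw [h.hp x' x'' hx' ⟨y, hy'⟩ e]
    exact hy'
  obtain ⟨z, hz⟩ := hx'
  rcases lt_trichotomy (q z) (q y) with hlt | e | hlt
  · exact (h.hS x x' z y h1 hlt hy hz).2
  · rw [← h.hq z y ⟨x', hz⟩ ⟨x, hy⟩ e]
    exact hz
  · exact (h.hS x' x'' y z h2 hlt hz hy').1

theorem Num.colm (h : Num M lt p q) {x y y' y'' : V} (h1 : q y ≤ q y') (h2 : q y' ≤ q y'')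
    (hy' : Co M y') (hx : M x y) (hx' : M x y'') : M x y' := by
  rcases Nat.eq_or_lt_of_le h1 with e | h1
  · rw [← h.hq y y' ⟨x, hx⟩ hy' e]
    exact hx
  rcases Nat.eq_or_lt_of_le h2 with e | h2
  · rw [h.hq y' y'' hy' ⟨x, hx'⟩ e]
    exact hx'
  obtain ⟨z, hz⟩ := hy'
  rcases lt_trichotomy (p z) (p x) with hlt | e | hlt
  · exact (h.hS z x y y' hlt h1 hz hx).2
  · rw [← h.hp z x ⟨y', hz⟩ ⟨y, hx⟩ e]
    exact hz
  · exact (h.hS x z y' y'' hlt h2 hx' hz).1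

/-- Milestones exist. -/
theorem exists_mil [Finite V] (h : Num M lt p q) : ∃ S, Mil M p S := by
  classical
  have key : ∀ n : ℕ, ∃ S : V → Prop, (∀ m, S m → Ro M m ∧ p m < n) ∧
      (∀ m m', S m → S m' → Meet M m m' → m = m') ∧
      (∀ x, Ro M x → p x < n → ∃ m, S m ∧ p m ≤ p x ∧ Meet M m x) := by
    intro n
    induction n with
    | zero =>
      exact ⟨fun _ => False, fun _ h => h.elim, fun _ _ h => h.elim, fun x _ h => absurd h (Nat.not_lt_zero _)⟩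
    | succ n ih =>
      obtain ⟨S, h1, h2, h3⟩ := ih
      by_cases hx : ∃ x, Ro M x ∧ p x = n ∧ ∀ m, S m → ¬ Meet M m x
      · obtain ⟨x, hx1, hx2, hx3⟩ := hx
        refine ⟨fun m => S m ∨ m = x, ?_, ?_, ?_⟩
        · rintro m (hm | rfl)
          · exact ⟨(h1 m hm).1, Nat.lt_succ_of_lt (h1 m hm).2⟩
          · exact ⟨hx1, by omega⟩
        · rintro m m' (hm | rfl) (hm' | rfl) hmm
          · exact h2 m m' hm hm' hmm
          · exact absurd hmm (hx3 m hm)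
          · exact absurd hmm.symm (hx3 m' hm')
          · rfl
        · intro z hz hzn
          rcases Nat.lt_succ_iff_lt_or_eq.1 hzn with hlt | he
          · obtain ⟨m, hm1, hm2, hm3⟩ := h3 z hz hlt
            exact ⟨m, Or.inl hm1, hm2, hm3⟩
          · have : z = x := h.hp z x hz hx1 (by omega)
            subst this
            obtain ⟨y, hy⟩ := hz
            exact ⟨z, Or.inr rfl, le_rfl, y, hy, hy⟩
      · push Not at hx
        refine ⟨S, fun m hm => ⟨(h1 m hm).1, Nat.lt_succ_of_lt (h1 m hm).2⟩, h2, ?_⟩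
        intro z hz hzn
        rcases Nat.lt_succ_iff_lt_or_eq.1 hzn with hlt | he
        · exact h3 z hz hlt
        · obtain ⟨m, hm1, hm2⟩ := hx z hz he
          exact ⟨m, hm1, by have := (h1 m hm1).2; omega, hm2⟩
  obtain ⟨n, hn⟩ : ∃ n, ∀ x, p x < n := by
    obtain ⟨n, hn⟩ := (Set.finite_range p).bddAbove
    exact ⟨n + 1, fun x => Nat.lt_succ_of_le (hn ⟨x, rfl⟩)⟩
  obtain ⟨S, h1, h2, h3⟩ := key n
  exact ⟨S, fun m hm => (h1 m hm).1, h2, fun x hx => h3 x hx (hn x)⟩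

theorem mu_unique (h : Num M lt p q) (hS : Mil M p S) {x m m' : V} (hm : S m) (hm' : S m')
    (h1 : p m ≤ p x) (h1' : p m' ≤ p x) (h2 : Meet M m x) (h2' : Meet M m' x) : m = m' := by
  rcases le_total (p m) (p m') with hle | hle
  · obtain ⟨y, hy1, hy2⟩ := h2
    exact hS.sep m m' hm hm' ⟨y, hy1, h.row hle h1' (hS.ro m' hm') hy1 hy2⟩
  · obtain ⟨y, hy1, hy2⟩ := h2'
    exact hS.sep m m' hm hm' ⟨y, h.row hle h1 (hS.ro m hm) hy1 hy2, hy1⟩

theorem nu_unique (h : Num M lt p q) (hS : Mil M p S) {x m m' : V} (hm : S m) (hm' : S m')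
    (h1 : p x ≤ p m) (h1' : p x ≤ p m') (h2 : Meet M m x) (h2' : Meet M m' x) : m = m' := by
  rcases le_total (p m) (p m') with hle | hle
  · obtain ⟨y, hy1, hy2⟩ := h2'
    exact hS.sep m m' hm hm' ⟨y, h.row h1 hle (hS.ro m hm) hy2 hy1, hy1⟩
  · obtain ⟨y, hy1, hy2⟩ := h2
    exact hS.sep m m' hm hm' ⟨y, hy1, h.row h1' hle (hS.ro m' hm') hy2 hy1⟩

/-- The number of milestones that are not after `x`. -/
noncomputable def cnt (p : V → ℕ) (S : V → Prop) (x : V) : ℕ := Set.ncard {m | S m ∧ p m ≤ p x}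

/-- The colour of a row. -/
def colr (p : V → ℕ) (S : V → Prop) (x : V) : Prop := cnt p S x % 2 = 0

theorem colr_iff [Finite V] (h : Num M lt p q) (hS : Mil M p S) {x m : V} (hm : S m)
    (h2 : Meet M m x) : (colr p S m ↔ colr p S x) ↔ p m ≤ p x := by
  have hx : Ro M x := by
    obtain ⟨y, _, hy⟩ := h2
    exact ⟨y, hy⟩
  rcases Nat.lt_or_ge (p x) (p m) with hlt | hle
  · have e : {m' | S m' ∧ p m' ≤ p m} = insert m {m' | S m' ∧ p m' ≤ p x} := by
      ext m'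
      constructor
      · rintro ⟨h3, h4⟩
        rcases Nat.lt_or_ge (p x) (p m') with h5 | h5
        · left
          by_contra hne
          obtain ⟨y, hy1, hy2⟩ := h2
          exact hne (hS.sep m' m h3 hm ⟨y, h.row h5.le h4 (hS.ro m' h3) hy2 hy1, hy1⟩)
        · exact Or.inr ⟨h3, h5⟩
      · rintro (rfl | ⟨h3, h4⟩)
        · exact ⟨hm, le_rfl⟩
        · exact ⟨h3, by omega⟩
    have e2 : cnt p S m = cnt p S x + 1 := by
      unfold cnt
      rw [e, Set.ncard_insert_of_notMem]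
      rintro ⟨_, h4⟩
      omega
    unfold colr
    constructor
    · intro h5
      omega
    · intro h5
      omega
  · have e : {m' | S m' ∧ p m' ≤ p m} = {m' | S m' ∧ p m' ≤ p x} := by
      ext m'
      constructor
      · rintro ⟨h3, h4⟩
        exact ⟨h3, h4.trans hle⟩
      · rintro ⟨h3, h4⟩
        refine ⟨h3, ?_⟩
        by_contra h5
        obtain ⟨y, hy1, hy2⟩ := h2
        have := hS.sep m m' hm h3 ⟨y, hy1, h.row (by omega) h4 (hS.ro m' h3) hy1 hy2⟩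
        subst this
        exact h5 le_rfl
    have e2 : cnt p S m = cnt p S x := by
      unfold cnt
      rw [e]
    unfold colr
    rw [e2]
    exact ⟨fun _ => hle, fun _ => Iff.rfl⟩

theorem ff_iff [Finite V] (h : Num M lt p q) (hS : Mil M p S) {x m : V} :
    ff M S (colr p S) x m ↔ S m ∧ p m ≤ p x ∧ Meet M m x := by
  constructor
  · rintro ⟨h1, h2, h3⟩
    exact ⟨h1, (colr_iff h hS h1 h3).1 h2, h3⟩
  · rintro ⟨h1, h2, h3⟩
    exact ⟨h1, (colr_iff h hS h1 h3).2 h2, h3⟩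

theorem key_exists [Finite V] (h : Num M lt p q) (hS : Mil M p S) {y : V} (hy : Co M y) :
    ∃ m, Key M S (colr p S) y m := by
  by_cases hA : AA M S y
  · obtain ⟨m, hm1, hm2⟩ := hA
    exact ⟨m, hm1, Or.inl hm2⟩
  · obtain ⟨x, hx⟩ := hy
    obtain ⟨m, hm1, hm2, hm3⟩ := hS.cov x ⟨y, hx⟩
    exact ⟨m, hm1, Or.inr ⟨hA, x, hx, (ff_iff h hS).2 ⟨hm1, hm2, hm3⟩⟩⟩

theorem key_aux [Finite V] (h : Num M lt p q) (hS : Mil M p S) {y x x' m m' : V}
    (hA : ¬ AA M S y) (hx : M x y) (hx' : M x' y) (hm : ff M S (colr p S) x m)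
    (hm' : ff M S (colr p S) x' m') (hle : p x ≤ p x') : m = m' := by
  rw [ff_iff h hS] at hm hm'
  obtain ⟨h1, h2, h3⟩ := hm
  obtain ⟨h1', h2', y1, h3', h4'⟩ := hm'
  rcases Nat.lt_or_ge (p x) (p m') with h5 | h5
  · exact absurd ⟨m', h1', h.row h5.le h2' (hS.ro m' h1') hx hx'⟩ hA
  · exact mu_unique h hS h1 h1' h2 h5 h3 ⟨y1, h3', h.row h5 hle ⟨y, hx⟩ h3' h4'⟩

theorem key_unique [Finite V] (h : Num M lt p q) (hS : Mil M p S) {y m m' : V}
    (hm : Key M S (colr p S) y m) (hm' : Key M S (colr p S) y m') : m = m' := by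
  obtain ⟨h1, h2⟩ := hm
  obtain ⟨h1', h2'⟩ := hm'
  rcases h2 with h2 | ⟨hA, x, hx, hf⟩
  · rcases h2' with h2' | ⟨hA, x, hx, hf⟩
    · exact hS.sep m m' h1 h1' ⟨y, h2, h2'⟩
    · exact absurd ⟨m, h1, h2⟩ hA
  · rcases h2' with h2' | ⟨hA', x', hx', hf'⟩
    · exact absurd ⟨m', h1', h2'⟩ hA
    · rcases le_total (p x) (p x') with hle | hle
      · exact key_aux h hS hA hx hx' hf hf' hle
      · exact (key_aux h hS hA hx' hx hf' hf hle).symm

/-- All rows of a column that belongs to no milestone have the milestone of the column. -/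
theorem key_row [Finite V] (h : Num M lt p q) (hS : Mil M p S) {x y m : V}
    (hA : ¬ AA M S y) (hm : Key M S (colr p S) y m) (hx : M x y) : ff M S (colr p S) x m := by
  obtain ⟨m', h1, h2, h3⟩ := hS.cov x ⟨y, hx⟩
  have hf : ff M S (colr p S) x m' := (ff_iff h hS).2 ⟨h1, h2, h3⟩
  rw [key_unique h hS hm ⟨h1, Or.inr ⟨hA, x, hx, hf⟩⟩]
  exact hf

theorem key_mil {y m : V} (hA : AA M S y) (hm : Key M S col y m) : M m y := by
  rcases hm.2 with h | h
  · exact h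
  · exact absurd hA h.1

/-! ### The order inside a block -/

theorem upA [Finite V] (h : Num M lt p q) (hS : Mil M p S) {m x y y' : V}
    (hy' : M m y') (hlt : q y < q y') (hf : ff M S (colr p S) x m) (hx : M x y) : M x y' := by
  obtain ⟨h1, h2, h3⟩ := (ff_iff h hS).1 hf
  rcases Nat.eq_or_lt_of_le h2 with e | h2
  · rw [← h.hp m x (hS.ro m h1) ⟨y, hx⟩ e]
    exact hy'
  · exact (h.hS m x y y' h2 hlt hy' hx).2

theorem loA [Finite V] (h : Num M lt p q) (hS : Mil M p S) {m x y y' : V} (hm : S m)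
    (hy : M m y) (hy' : M m y') (hlt : q y < q y') (hf : ¬ ff M S (colr p S) x m) (hx : M x y') :
    M x y := by
  rw [ff_iff h hS] at hf
  have h1 : p x < p m := by
    by_contra hn
    exact hf ⟨hm, by omega, y', hy', hx⟩
  exact (h.hS x m y y' h1 hlt hx hy).1

theorem da_iff [Finite V] (h : Num M lt p q) (hS : Mil M p S) {m y y' : V} (hm : S m)
    (hy : M m y) (hy' : M m y') : DA M lt S (colr p S) m y y' ↔ q y < q y' := by
  constructor
  · rintro (⟨x, h1, h2, h3⟩ | ⟨x, h1, h2, h3⟩ | ⟨h1, h2⟩)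
    · by_contra hn
      rcases Nat.eq_or_lt_of_le (Nat.le_of_not_lt hn) with e | hlt
      · rw [h.hq y' y ⟨m, hy'⟩ ⟨m, hy⟩ e] at h2
        exact h3 h2
      · exact h3 (upA h hS hy hlt h1 h2)
    · by_contra hn
      rcases Nat.eq_or_lt_of_le (Nat.le_of_not_lt hn) with e | hlt
      · rw [h.hq y' y ⟨m, hy'⟩ ⟨m, hy⟩ e] at h3
        exact h3 h2
      · exact h3 (loA h hS hm hy' hy hlt h1 h2)
    · exact (h.hT y y' ⟨m, hy⟩ ⟨m, hy'⟩ h1).2 h2
  · intro hlt
    by_cases hT : Tw M y y'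
    · exact Or.inr (Or.inr ⟨hT, (h.hT y y' ⟨m, hy⟩ ⟨m, hy'⟩ hT).1 hlt⟩)
    · unfold Tw at hT
      push Not at hT
      obtain ⟨x, hx⟩ := hT
      by_cases hf : ff M S (colr p S) x m
      · rcases hx with ⟨h1, h2⟩ | ⟨h1, h2⟩
        · exact absurd (upA h hS hy' hlt hf h1) h2
        · exact Or.inl ⟨x, hf, h2, h1⟩
      · rcases hx with ⟨h1, h2⟩ | ⟨h1, h2⟩
        · exact Or.inr (Or.inl ⟨x, hf, h1, h2⟩)
        · exact absurd (loA h hS hm hy hy' hlt hf h2) h1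

theorem loB [Finite V] (h : Num M lt p q) (hS : Mil M p S) {m x y y' : V} (hA : ¬ AA M S y)
    (hA' : ¬ AA M S y') (hm : Key M S (colr p S) y m) (hm' : Key M S (colr p S) y' m)
    (hy : Co M y) (hlt : q y < q y') (hx : M x y') : M x y := by
  obtain ⟨h1, h2, y2, h3, h4⟩ := (ff_iff h hS).1 (key_row h hS hA' hm' hx)
  obtain ⟨x0, hx0⟩ := hy
  obtain ⟨_, g2, _⟩ := (ff_iff h hS).1 (key_row h hS hA hm hx0)
  have hlt2 : q y2 < q y := by
    rcases lt_trichotomy (q y2) (q y) with h5 | h5 | h5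
    · exact h5
    · rw [h.hq y2 y ⟨m, h3⟩ ⟨x0, hx0⟩ h5] at h3
      exact absurd ⟨m, h1, h3⟩ hA
    · rcases Nat.eq_or_lt_of_le g2 with e | g2
      · rw [← h.hp m x0 (hS.ro m h1) ⟨y, hx0⟩ e] at hx0
        exact absurd ⟨m, h1, hx0⟩ hA
      · exact absurd ⟨m, h1, (h.hS m x0 y y2 g2 h5 h3 hx0).1⟩ hA
  exact h.colm hlt2.le hlt.le ⟨x0, hx0⟩ h4 hx

theorem db_iff [Finite V] (h : Num M lt p q) (hS : Mil M p S) {m y y' : V} (hA : ¬ AA M S y)
    (hA' : ¬ AA M S y') (hm : Key M S (colr p S) y m) (hm' : Key M S (colr p S) y' m)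
    (hy : Co M y) (hy' : Co M y') : DB M lt y y' ↔ q y < q y' := by
  constructor
  · rintro (⟨x, h2, h3⟩ | ⟨h1, h2⟩)
    · by_contra hn
      rcases Nat.eq_or_lt_of_le (Nat.le_of_not_lt hn) with e | hlt
      · rw [h.hq y' y hy' hy e] at h3
        exact h3 h2
      · exact h3 (loB h hS hA' hA hm' hm hy' hlt h2)
    · exact (h.hT y y' hy hy' h1).2 h2
  · intro hlt
    by_cases hT : Tw M y y'
    · exact Or.inr ⟨hT, (h.hT y y' hy hy' hT).1 hlt⟩
    · unfold Tw at hT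
      push Not at hT
      obtain ⟨x, hx⟩ := hT
      rcases hx with ⟨h1, h2⟩ | ⟨h1, h2⟩
      · exact Or.inl ⟨x, h1, h2⟩
      · exact absurd (loB h hS hA hA' hm hm' hy hlt h2) h1

end B

end P1346e8
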